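import Pool.Agent.Helper26.HN.Stmts

set_option autoImplicit false

namespace Pool.Agent.Helper9.HN

open MeasureTheory Pool.Agent.Helper95.PW Pool.Agent.Helper95.LN Pool.Agent.Helper26.HN

theorem nr_neg' (y : R3) : nr (-y) = nr y := by
  unfold nr
  simp only [Pi.neg_apply, neg_sq]

theorem Kf_neg' (a : ℝ) (z : R3) : Kf a (-z) = Kf a z := by
  unfold Kf
  congr 1
  rw [← integral_neg_eq_self (fun w : R3 => ph a (w - z) * et a w)]
  refine integral_congr_ae (Filter.Eventually.of_forall fun w => ?_)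
  change ph a (w - -z) * et a w = ph a (-w - z) * et a (-w)
  have h1 : et a (-w) = et a w := by unfold et; rw [nr_neg']
  have h2 : ph a (w - -z) = ph a (-w - z) := by
    have e : -w - z = -(w - -z) := by abel
    rw [e]
    unfold ph
    rw [nr_neg']
  rw [h1, h2]

theorem sym_sum' {n : ℕ} (f : Fin n → Fin n → ℝ) (hf : ∀ k l, f k l = f l k) :
    ∑ k, ∑ l, f k l = (∑ k, f k k) + 2 * ∑ k, ∑ l, if k < l then f k l else 0 := by
  have h1 : ∀ k l, f k l = (if k = l then f k k else 0) + (if k < l then f k l else 0) +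
      (if l < k then f k l else 0) := by
    intro k l
    rcases lt_trichotomy k l with h | h | h
    · rw [if_neg h.ne, if_pos h, if_neg h.le.not_gt]; ring
    · subst h
      rw [if_pos rfl, if_neg (lt_irrefl _)]; ring
    · rw [if_neg h.ne', if_neg h.le.not_gt, if_pos h]; ring
  have h2 : ∑ k, ∑ l, (if l < k then f k l else 0) =
      ∑ k, ∑ l, (if k < l then f k l else 0) := by
    rw [Finset.sum_comm]
    refine Finset.sum_congr rfl fun l _ => Finset.sum_congr rfl fun k _ => ?_
    rw [hf k l]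
  have h3 : ∑ k, ∑ l, (if k = l then f k k else 0) = ∑ k, f k k := by
    refine Finset.sum_congr rfl fun k _ => ?_
    rw [Finset.sum_ite_eq Finset.univ k]
    simp
  calc ∑ k, ∑ l, f k l = ∑ k, ∑ l, ((if k = l then f k k else 0) +
        (if k < l then f k l else 0) + (if l < k then f k l else 0)) :=
        Finset.sum_congr rfl fun k _ => Finset.sum_congr rfl fun l _ => h1 k l
    _ = (∑ k, f k k) + (∑ k, ∑ l, if k < l then f k l else 0) +
        ∑ k, ∑ l, (if k < l then f k l else 0) := by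
        simp only [Finset.sum_add_distrib]
        rw [h3, h2]
    _ = _ := by ring

theorem st_ESB (h1 : ST_DEX) (h2 : ST_KK) (h4 : ST_PHC) : ST_ESB := by
  intro z b d hz hb hbd n M X Z x hS hN hZ hx
  obtain ⟨hZ0, hZn⟩ := hN
  obtain ⟨hx1, hx2⟩ := hx
  have hd : 0 < d := lt_of_lt_of_le hb hbd
  obtain ⟨-, hD⟩ := h1 b n M X Z x hb
  have K0 : ∀ y, 0 ≤ Kf b y := fun y => (h2 b y hb).2.2.1
  have K2 : ∀ y, Kf b y ≤ 2 / b := fun y => (h2 b y hb).2.2.2
  have K1 : ∀ y, nr y ≠ 0 → Kf b y ≤ 1 / nr y := fun y => (h2 b y hb).2.1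
  have Kq : ∀ y, 2 * b ≤ nr y → Kf b y = 1 / nr y := fun y => (h2 b y hb).1
  have hKn : ∀ u v : R3, Kf b (u - v) = Kf b (v - u) := fun u v => by
    rw [← Kf_neg', neg_sub]
  have e1 : ∑ k, ∑ l, Kf b (x k - x l) = n * Kf b 0 +
      2 * ∑ k, ∑ l, if k < l then Kf b (x k - x l) else 0 := by
    rw [sym_sum' (fun k l => Kf b (x k - x l)) fun k l => hKn _ _]
    simp
  have e2 : ∑ i, ∑ j, Z i * Z j * Kf b (X i - X j) = (∑ i, Z i * Z i * Kf b 0) +
      2 * ∑ i, ∑ j, if i < j then Z i * Z j * Kf b (X i - X j) else 0 := by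
    rw [sym_sum' (fun i j => Z i * Z j * Kf b (X i - X j)) fun k l => by
      rw [hKn, mul_comm (Z k)]]
    simp
  -- repulsion
  have e3 : Rem b x = rep x - ∑ k, ∑ l, if k < l then Kf b (x k - x l) else 0 := by
    unfold Rem rep
    rw [← Finset.sum_sub_distrib]
    refine Finset.sum_congr rfl fun k _ => ?_
    rw [← Finset.sum_sub_distrib]
    refine Finset.sum_congr rfl fun l _ => ?_
    split_ifs <;> ring
  -- nuclei
  have e4 : ∑ i, ∑ j, (if i < j then Z i * Z j * Kf b (X i - X j) else 0) ≤ nucR X Z := by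
    unfold nucR
    refine Finset.sum_le_sum fun i _ => Finset.sum_le_sum fun j _ => ?_
    split_ifs with h
    · have h5 : nr (X i - X j) ≠ 0 := by
        have := hS i j h.ne
        intro h6
        rw [h6] at this
        linarith
      have h6 := mul_le_mul_of_nonneg_left (K1 _ h5) (mul_nonneg (hZ0 i) (hZ0 j))
      rwa [mul_one_div] at h6
    · exact le_rfl
  -- attraction
  have e5 : ∀ k j, Z j / nr (x k - X j) - Z j * Kf b (x k - X j) ≤
      z * (if nr (x k - X j) < 2 * b then 1 / nr (x k - X j) else 0) := by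
    intro k j
    have h5 := hx2 k j
    have h6 := K1 _ h5
    have h7 := K0 (x k - X j)
    have h8 : Z j / nr (x k - X j) - Z j * Kf b (x k - X j) =
        Z j * (1 / nr (x k - X j) - Kf b (x k - X j)) := by ring
    rw [h8]
    split_ifs with h
    · calc Z j * (1 / nr (x k - X j) - Kf b (x k - X j))
          ≤ z * (1 / nr (x k - X j) - Kf b (x k - X j)) :=
            mul_le_mul_of_nonneg_right (hZ j) (by linarith)
        _ ≤ z * (1 / nr (x k - X j)) := mul_le_mul_of_nonneg_left (by linarith) hz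
    · rw [Kq _ (not_lt.1 h)]
      simp
  have e6 : (∑ k, pot X Z (x k)) - ∑ k, ∑ j, Z j * Kf b (x k - X j) ≤
      z * ∑ k, near1 X (2 * b) (x k) := by
    unfold pot near1
    rw [← Finset.sum_sub_distrib, Finset.mul_sum]
    refine Finset.sum_le_sum fun k _ => ?_
    rw [← Finset.sum_sub_distrib, Finset.mul_sum]
    exact Finset.sum_le_sum fun j _ => e5 k j
  -- self energies
  have hk0 : Kf b 0 ≤ 2 / b := K2 0
  have hk1 : 0 ≤ Kf b 0 := K0 0
  have e7 : ∑ i, Z i * Z i * Kf b 0 ≤ z * n * (2 / b) := by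
    calc ∑ i, Z i * Z i * Kf b 0 ≤ ∑ i, z * Z i * (2 / b) := by
          refine Finset.sum_le_sum fun i _ => ?_
          exact mul_le_mul (mul_le_mul_of_nonneg_right (hZ i) (hZ0 i)) hk0 hk1
            (mul_nonneg hz (hZ0 i))
      _ = z * n * (2 / b) := by
          rw [← Finset.sum_mul, ← Finset.mul_sum, hZn]
  have e8 : (n : ℝ) * Kf b 0 ≤ n * (2 / b) := mul_le_mul_of_nonneg_left hk0 (Nat.cast_nonneg _)
  have e10 : (1 + z) / b * (n : ℝ) = 1 / 2 * (n * (2 / b)) + 1 / 2 * (z * n * (2 / b)) := by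
    field_simp
  refine ⟨?_, ?_, ?_⟩
  · unfold Dn
    have hk : 0 < kap := h4.2.1
    refine mul_nonneg (by positivity) (integral_nonneg fun w => ?_)
    exact Finset.sum_nonneg fun i _ => sq_nonneg _
  · unfold Rem
    refine Finset.sum_nonneg fun k _ => Finset.sum_nonneg fun l _ => ?_
    split_ifs with h
    · linarith [K1 _ (hx1 k l h.ne)]
    · exact le_rfl
  · unfold Vc
    rw [hD, e1, e2, e3, e10]
    linarith

end Pool.Agent.Helper9.HN
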